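import Pool.Agent.Q31.GLW.Stm

/-! # Job GLW-TRF of helper31 (backup proof): transfinite recursion of length `ω₁` -/

set_option autoImplicit false

namespace Pool.Agent.Q158.GLW

open Module Cardinal Submodule Pool.Agent.Q31.GLW

/-- the directed union of the groups generated by the initial segments -/
theorem dir_union {G T : Type} [Group G] [LinearOrder T] (h : T → G) (S : Set T) (x : G)
    (hx : x ∈ Subgroup.closure (h '' S)) :
    x = 1 ∨ ∃ σ ∈ S, x ∈ Subgroup.closure (h '' {ρ | ρ ≤ σ}) := by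
  have mono : ∀ σ σ' : T, σ ≤ σ' → Subgroup.closure (h '' {ρ | ρ ≤ σ}) ≤
      Subgroup.closure (h '' {ρ | ρ ≤ σ'}) := by
    intro σ σ' hs
    apply Subgroup.closure_mono
    apply Set.image_mono
    intro ρ hρ
    exact le_trans hρ hs
  induction hx using Subgroup.closure_induction with
  | mem x hx =>
    obtain ⟨σ, hσ, rfl⟩ := hx
    exact Or.inr ⟨σ, hσ, Subgroup.subset_closure ⟨σ, le_refl σ, rfl⟩⟩
  | one => exact Or.inl rfl
  | mul x y _ _ ihx ihy =>
    rcases ihx with rfl | ⟨σ, hσ, hx⟩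
    · rw [one_mul]; exact ihy
    · rcases ihy with rfl | ⟨σ', hσ', hy⟩
      · rw [mul_one]; exact Or.inr ⟨σ, hσ, hx⟩
      · rcases le_total σ σ' with hs | hs
        · exact Or.inr ⟨σ', hσ', Subgroup.mul_mem _ (mono _ _ hs hx) hy⟩
        · exact Or.inr ⟨σ, hσ, Subgroup.mul_mem _ hx (mono _ _ hs hy)⟩
  | inv x _ ihx =>
    rcases ihx with rfl | ⟨σ, hσ, hx⟩
    · exact Or.inl inv_one
    · exact Or.inr ⟨σ, hσ, Subgroup.inv_mem _ hx⟩

theorem countable_closure {G : Type} [Group G] (S : Set G) (hS : S.Countable) :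
    ((Subgroup.closure S : Subgroup G) : Set G).Countable := by
  have : Countable S := hS.to_subtype
  have : Countable (FreeGroup S) := by
    have hl : Function.Surjective (FreeGroup.mk : List (S × Bool) → FreeGroup S) :=
      fun x => Quot.exists_rep x
    exact hl.countable
  have h1 : (FreeGroup.lift (fun s : S => (s : G))).range = Subgroup.closure S := by
    rw [FreeGroup.range_lift_eq_closure, Subtype.range_coe]
  rw [← h1, MonoidHom.coe_range]
  exact Set.countable_range _

theorem core {G T : Type} [Group G] [LinearOrder T] [WellFoundedLT T] (P : G → Prop)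
    (sol : T → G → Prop) (hc : ∀ τ : T, {σ | σ < τ}.Countable) (h1 : P 1)
    (H : ∀ K : Subgroup G, (K : Set G).Countable → (∀ k ∈ K, P k) → ∀ τ : T, ∃ h, sol τ h ∧
      ∀ x ∈ Subgroup.closure ((K : Set G) ∪ {h}), P x) :
    ∃ H : Subgroup G, (∀ x ∈ H, P x) ∧ ∀ τ, ∃ h ∈ H, sol τ h := by
  classical
  let Fn : ∀ τ : T, (∀ σ : T, σ < τ → G) → G := fun τ prev =>
    if hyp : ∃ g, sol τ g ∧ ∀ x ∈ Subgroup.closure
      (((Subgroup.closure {y | ∃ (σ : T) (hσ : σ < τ), prev σ hσ = y} : Subgroup G) : Set G) ∪ {g}),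
        P x then hyp.choose else 1
  let h : T → G := (wellFounded_lt (α := T)).fix Fn
  have hfix : ∀ τ, h τ = Fn τ (fun σ _ => h σ) := fun τ => WellFounded.fix_eq _ Fn τ
  have hset : ∀ τ : T, {y | ∃ (σ : T) (_ : σ < τ), h σ = y} = h '' {σ | σ < τ} := by
    intro τ
    ext y
    constructor
    · rintro ⟨σ, hσ, rfl⟩; exact ⟨σ, hσ, rfl⟩
    · rintro ⟨σ, hσ, rfl⟩; exact ⟨σ, hσ, rfl⟩
  -- the main statement
  have key : ∀ τ : T, sol τ (h τ) ∧ ∀ x ∈ Subgroup.closure (h '' {ρ | ρ ≤ τ}), P x := by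
    intro τ
    induction τ using WellFoundedLT.induction with
    | ind τ ih =>
      have hK : ∀ k ∈ Subgroup.closure (h '' {σ | σ < τ}), P k := by
        intro k hk
        rcases dir_union h _ k hk with rfl | ⟨σ, hσ, hx⟩
        · exact h1
        · exact (ih σ hσ).2 k hx
      have hex := H (Subgroup.closure (h '' {σ | σ < τ}))
        (countable_closure _ ((hc τ).image h)) hK τ
      have hex' : ∃ g, sol τ g ∧ ∀ x ∈ Subgroup.closure
          (((Subgroup.closure {y | ∃ (σ : T) (_ : σ < τ), h σ = y} : Subgroup G) : Set G) ∪ {g}),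
          P x := by
        rw [hset]; exact hex
      have hval : h τ = hex'.choose := by
        rw [hfix]
        exact dif_pos hex'
      have hspec := hex'.choose_spec
      rw [← hval, hset] at hspec
      refine ⟨hspec.1, fun x hx => hspec.2 x ?_⟩
      refine (Subgroup.closure_mono ?_) hx
      rintro _ ⟨ρ, hρ, rfl⟩
      rcases lt_or_eq_of_le (show ρ ≤ τ from hρ) with hlt | rfl
      · exact Or.inl (Subgroup.subset_closure ⟨ρ, hlt, rfl⟩)
      · exact Or.inr rfl
  refine ⟨Subgroup.closure (h '' Set.univ), ?_, ?_⟩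
  · intro x hx
    rcases dir_union h _ x hx with rfl | ⟨σ, _, hx⟩
    · exact h1
    · exact (key σ).2 x hx
  · intro τ
    exact ⟨h τ, Subgroup.subset_closure ⟨τ, trivial, rfl⟩, (key τ).1⟩

theorem t_TRF : S_TRF := by
  intro G T _ P sol hT h1 H
  have hI : #T ≤ #((ℵ₁ : Cardinal.{0}).ord.ToType) := by
    rw [mk_ord_toType]; exact hT
  obtain ⟨f⟩ := hI
  let _ : LinearOrder T := LinearOrder.lift' f f.injective
  have : WellFoundedLT T := ⟨InvImage.wf f (wellFounded_lt (α := (ℵ₁ : Cardinal.{0}).ord.ToType))⟩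
  refine core P sol (fun τ => ?_) h1 H
  have hcI : (Set.Iio (f τ)).Countable := by
    rw [← Cardinal.le_aleph0_iff_set_countable, ← Order.lt_succ_iff, ← Cardinal.aleph_zero,
      ← Cardinal.aleph_succ]
    have := mk_Iio_toType_ord_lt (f τ)
    simpa using this
  have : {σ : T | σ < τ} = f ⁻¹' (Set.Iio (f τ)) := rfl
  rw [this]
  exact hcI.preimage f.injective

end Pool.Agent.Q158.GLW
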